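import Mathlib
import Pool.Agent.H1.GSeq.Defs
import Pool.Agent.H1.GSeq.Proof

set_option autoImplicit false

namespace Pool.Agent.Results.MP_09fd01_co.GammaCycle

open Pool.Agent.H1.GSeq

/-- There is a finite nonempty graph `X` whose `γ`-graph sequence `X, X(γ), X(γ)(γ), …` is a cycle
of length `k` for some `k ≥ 2`: the `k`-th graph is isomorphic to `X` and no earlier one (after
`X` itself) is. -/
theorem result : ∃ (X : FinGraph) (k : ℕ), Nonempty X.V ∧ 2 ≤ k ∧
    Isomorphic (next^[k] X) X ∧ ∀ i : ℕ, 0 < i → i < k → ¬ Isomorphic (next^[i] X) X := main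

end Pool.Agent.Results.MP_09fd01_co.GammaCycle
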